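import Mathlib

/-!
# Local Cheeger / Nash inequality (MP_db9399, all scales, block NASH)

`a` is a symmetric nonnegative kernel with row sums at most `d` (for instance the adjacency matrix of
a graph of maximum degree at most `d`; missing degree acts as killing), `pk a d j v x` is the weight
of the walks of length `j` from `v` to `x`, divided by `d ^ j`.

If no pair `T, U` of bounded size is nearly closed, then `pk a d j v x ≤ 1 / (M d)` for all `j` larger
than a constant depending only on `g` and `M`.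
-/

set_option autoImplicit false

namespace Pool.Agent.Work.MP_db9399_ns

open Finset Classical

universe u

/-- `d |T| - e(T, U)`: the number of edge ends at `T` which do not go to `U`, missing degree counted
as leaving. -/
noncomputable def leak {V : Type u} (a : V → V → ℝ) (d : ℝ) (T U : Finset V) : ℝ :=
  d * (T.card : ℝ) - ∑ x ∈ T, ∑ y ∈ U, a x y

/-- No bounded near-closed pair: every pair `T, U` with `0 < |T| ≤ K d`, `|U| ≤ (1+g)|T|` leaks at
least `g d |T|`. -/
def NoPair {V : Type u} (a : V → V → ℝ) (d K g : ℝ) : Prop :=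
  ∀ T U : Finset V, T.Nonempty → (T.card : ℝ) ≤ K * d → (U.card : ℝ) ≤ (1 + g) * T.card →
    g * d * T.card ≤ leak a d T U

/-- The averaging operator `A / d`. -/
noncomputable def Pop {V : Type u} [Fintype V] (a : V → V → ℝ) (d : ℝ) (f : V → ℝ) : V → ℝ :=
  fun x => (1 / d) * ∑ y, a x y * f y

/-- Weight of the walks of length `j` from `v` to `x`, divided by `d ^ j`. -/
noncomputable def pk {V : Type u} [Fintype V] (a : V → V → ℝ) (d : ℝ) : ℕ → V → V → ℝ
  | 0, v => fun x => if x = v then 1 else 0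
  | j + 1, v => Pop a d (pk a d j v)

/-- Symmetric nonnegative kernel with row sums at most `d`. -/
structure Ker {V : Type u} [Fintype V] (a : V → V → ℝ) (d : ℝ) : Prop where
  pos : 0 < d
  nn : ∀ x y, 0 ≤ a x y
  symm : ∀ x y, a x y = a y x
  row : ∀ x, ∑ y, a x y ≤ d

/-- The L2 norm of a function which is spread over fewer than `M d` vertices decays. -/
def Stmt_NASH1 : Prop :=
  ∀ {V : Type u} [Fintype V] (a : V → V → ℝ) (d M g : ℝ), Ker a d → 0 < M → 0 < g → g ≤ 1 →
    NoPair a d (8 * M / g) g → ∀ f : V → ℝ, (∀ x, 0 ≤ f x) → ∑ x, f x ≤ 1 →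
    1 / (M * d) ≤ ∑ x, f x ^ 2 →
    ∑ x, Pop a d f x ^ 2 ≤ (1 - g ^ 4 / 576) * ∑ x, f x ^ 2

/-- Small return probabilities. The kernel has entries at most `1` (simple graph). -/
def Stmt_NASH : Prop :=
  ∀ {V : Type u} [Fintype V] (a : V → V → ℝ) (d M g : ℝ), Ker a d → (∀ x y, a x y ≤ 1) →
    1 ≤ M → 0 < g → g ≤ 1 → NoPair a d (8 * M / g) g →
    ∀ J : ℕ, 1 + 576 * Real.log M / g ^ 4 ≤ (J : ℝ) →
      (∀ v, ∑ x, pk a d J v x ^ 2 ≤ 1 / (M * d)) ∧
      ∀ j, 2 * J ≤ j → ∀ v x, pk a d j v x ≤ 1 / (M * d)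

/-! ## Thresholds -/

theorem integral_ind (s t0 R : ℝ) (h0 : t0 ≤ R) (hs : s ≤ R) :
    ∫ t in t0..R, (if t < s then (1 : ℝ) else 0) = max (s - t0) 0 := by
  rcases le_total s t0 with h | h
  · rw [max_eq_right (by linarith)]
    rw [intervalIntegral.integral_congr (g := fun _ => (0 : ℝ))]
    · simp
    · intro t ht
      rw [Set.uIcc_of_le h0] at ht
      simp only
      rw [if_neg (by linarith [ht.1])]
  · rw [max_eq_left (by linarith)]
    have hint : ∀ u v : ℝ, IntervalIntegrable (fun t : ℝ => if t < s then (1 : ℝ) else 0)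
        MeasureTheory.volume u v := by
      intro u v
      apply Antitone.intervalIntegrable
      intro x y hxy
      simp only
      split_ifs with h1 h2 <;> linarith
    rw [← intervalIntegral.integral_add_adjacent_intervals (hint t0 s) (hint s R)]
    have e1 : ∫ t in t0..s, (if t < s then (1 : ℝ) else 0) = s - t0 := by
      rw [intervalIntegral.integral_of_le h]
      rw [MeasureTheory.integral_Ioc_eq_integral_Ioo]
      rw [MeasureTheory.setIntegral_congr_fun (g := fun _ => (1 : ℝ)) measurableSet_Ioo]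
      · simp [h]
      · intro t ht
        simp only
        rw [if_pos ht.2]
    have e2 : ∫ t in s..R, (if t < s then (1 : ℝ) else 0) = 0 := by
      rw [intervalIntegral.integral_congr (g := fun _ => (0 : ℝ))]
      · simp
      · intro t ht
        rw [Set.uIcc_of_le hs] at ht
        simp only
        rw [if_neg (by linarith [ht.1])]
    rw [e1, e2, add_zero]

/-- If a combination of threshold indicators is nonnegative for all thresholds `≥ t0`, so is the
combination of the truncated values. -/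
theorem threshold {ι : Type*} (I : Finset ι) (c s : ι → ℝ) (t0 : ℝ)
    (h : ∀ t, t0 ≤ t → 0 ≤ ∑ i ∈ I, c i * (if t < s i then (1 : ℝ) else 0)) :
    0 ≤ ∑ i ∈ I, c i * max (s i - t0) 0 := by
  obtain ⟨R, hR0, hR⟩ : ∃ R, t0 ≤ R ∧ ∀ i ∈ I, s i ≤ R := by
    refine ⟨t0 + ∑ i ∈ I, |s i - t0|, ?_, ?_⟩
    · have : 0 ≤ ∑ i ∈ I, |s i - t0| := Finset.sum_nonneg (fun i _ => abs_nonneg _)
      linarith
    · intro i hi
      have h1 : |s i - t0| ≤ ∑ i ∈ I, |s i - t0| :=
        Finset.single_le_sum (f := fun i => |s i - t0|) (fun i _ => abs_nonneg _) hi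
      have h2 := le_abs_self (s i - t0)
      linarith
  have hint : ∀ i, IntervalIntegrable (fun t : ℝ => c i * (if t < s i then (1 : ℝ) else 0))
      MeasureTheory.volume t0 R := by
    intro i
    apply IntervalIntegrable.const_mul
    apply Antitone.intervalIntegrable
    intro x y hxy
    simp only
    split_ifs with h1 h2 <;> linarith
  have key : ∫ t in t0..R, ∑ i ∈ I, c i * (if t < s i then (1 : ℝ) else 0)
      = ∑ i ∈ I, c i * max (s i - t0) 0 := by
    rw [intervalIntegral.integral_finsetSum (fun i _ => hint i)]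
    apply Finset.sum_congr rfl
    intro i hi
    rw [intervalIntegral.integral_const_mul, integral_ind _ _ _ hR0 (hR i hi)]
  rw [← key]
  apply intervalIntegral.integral_nonneg hR0
  intro t ht
  exact h t ht.1

/-! ## The energy identity -/

section step
variable {V : Type u} [Fintype V] {a : V → V → ℝ} {d : ℝ}

theorem row_swap (hk : Ker a d) (F : V → ℝ) :
    ∑ x, ∑ y, a x y * F y = ∑ y, (∑ x, a y x) * F y := by
  rw [Finset.sum_comm]
  apply Finset.sum_congr rfl
  intro y _
  rw [Finset.sum_mul]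
  apply Finset.sum_congr rfl
  intro x _
  rw [hk.symm x y]

theorem cross (hk : Ker a d) (f : V → ℝ) :
    ∑ x, ∑ y, a x y * (f x * Pop a d f y) = d * ∑ y, Pop a d f y ^ 2 := by
  have hd := hk.pos
  rw [Finset.sum_comm, Finset.mul_sum]
  apply Finset.sum_congr rfl
  intro y _
  have h1 : ∑ x, a x y * (f x * Pop a d f y) = (∑ x, a y x * f x) * Pop a d f y := by
    rw [Finset.sum_mul]
    apply Finset.sum_congr rfl
    intro x _
    rw [hk.symm x y]
    ring
  have h2 : ∑ x, a y x * f x = d * Pop a d f y := by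
    unfold Pop
    field_simp
  rw [h1, h2]
  ring

theorem energy (hk : Ker a d) (f : V → ℝ) :
    ∑ x, ∑ y, a x y * (f x - Pop a d f y) ^ 2 + ∑ x, (d - ∑ y, a x y) * f x ^ 2 +
      ∑ y, (d - ∑ x, a y x) * Pop a d f y ^ 2 =
    d * (∑ x, f x ^ 2 - ∑ y, Pop a d f y ^ 2) := by
  have h1 : ∑ x, ∑ y, a x y * (f x - Pop a d f y) ^ 2 =
      ∑ x, (∑ y, a x y) * f x ^ 2 - 2 * ∑ x, ∑ y, a x y * (f x * Pop a d f y) +
        ∑ y, (∑ x, a y x) * Pop a d f y ^ 2 := by
    rw [← row_swap hk (fun y => Pop a d f y ^ 2), Finset.mul_sum, ← Finset.sum_sub_distrib,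
      ← Finset.sum_add_distrib]
    apply Finset.sum_congr rfl
    intro x _
    rw [Finset.sum_mul, Finset.mul_sum, ← Finset.sum_sub_distrib, ← Finset.sum_add_distrib]
    apply Finset.sum_congr rfl
    intro y _
    ring
  rw [h1, cross hk f]
  have h2 : ∑ x, (d - ∑ y, a x y) * f x ^ 2 = d * ∑ x, f x ^ 2 - ∑ x, (∑ y, a x y) * f x ^ 2 := by
    rw [Finset.mul_sum, ← Finset.sum_sub_distrib]
    apply Finset.sum_congr rfl
    intro x _
    ring
  have h3 : ∑ y, (d - ∑ x, a y x) * Pop a d f y ^ 2 =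
      d * ∑ y, Pop a d f y ^ 2 - ∑ y, (∑ x, a y x) * Pop a d f y ^ 2 := by
    rw [Finset.mul_sum, ← Finset.sum_sub_distrib]
    apply Finset.sum_congr rfl
    intro x _
    ring
  rw [h2, h3]
  ring

theorem Pop_nn (hk : Ker a d) {f : V → ℝ} (hf : ∀ x, 0 ≤ f x) (x : V) : 0 ≤ Pop a d f x := by
  unfold Pop
  have hd := hk.pos
  apply mul_nonneg (by positivity)
  exact Finset.sum_nonneg (fun y _ => mul_nonneg (hk.nn x y) (hf y))

theorem Pop_sum (hk : Ker a d) {f : V → ℝ} (hf : ∀ x, 0 ≤ f x) :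
    ∑ x, Pop a d f x ≤ ∑ x, f x := by
  have hd := hk.pos
  unfold Pop
  rw [← Finset.mul_sum, row_swap hk f]
  have h1 : ∑ y, (∑ x, a y x) * f y ≤ ∑ y, d * f y :=
    Finset.sum_le_sum (fun y _ => mul_le_mul_of_nonneg_right (hk.row y) (hf y))
  rw [← Finset.mul_sum] at h1
  calc (1 / d) * ∑ y, (∑ x, a y x) * f y ≤ (1 / d) * (d * ∑ y, f y) :=
        mul_le_mul_of_nonneg_left h1 (by positivity)
    _ = ∑ y, f y := by field_simp

/-- sum of `a |f² - h²|` -/
theorem l1_bound (hk : Ker a d) (f : V → ℝ) (ε : ℝ) (hε : 0 < ε) (hε2 : ε ≤ 1 / 2) :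
    ∑ x, (d - ∑ y, a x y) * f x ^ 2 + ∑ x, ∑ y, a x y * |f x ^ 2 - Pop a d f y ^ 2| ≤
      (1 / (2 * ε)) * (d * (∑ x, f x ^ 2 - ∑ y, Pop a d f y ^ 2)) +
      ε * (d * (∑ x, f x ^ 2 + ∑ y, Pop a d f y ^ 2)) := by
  have hpt : ∀ x y, a x y * |f x ^ 2 - Pop a d f y ^ 2| ≤
      (1 / (2 * ε)) * (a x y * (f x - Pop a d f y) ^ 2) +
        ε * (a x y * f x ^ 2 + a x y * Pop a d f y ^ 2) := by
    intro x y
    set p := f x
    set q := Pop a d f y
    have ha := hk.nn x y
    have h0 : |p ^ 2 - q ^ 2| = |p - q| * |p + q| := by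
      rw [← abs_mul]; congr 1; ring
    have h1 : |p - q| * |p + q| ≤ (1 / (2 * ε)) * (p - q) ^ 2 + (ε / 2) * (p + q) ^ 2 := by
      have h2 : 0 ≤ (|p - q| - ε * |p + q|) ^ 2 := sq_nonneg _
      have h3 : (|p - q| - ε * |p + q|) ^ 2 =
          (p - q) ^ 2 - 2 * ε * (|p - q| * |p + q|) + ε ^ 2 * (p + q) ^ 2 := by
        rw [← sq_abs (p - q), ← sq_abs (p + q)]; ring
      rw [h3] at h2
      have h4 : (1 / (2 * ε)) * (p - q) ^ 2 + (ε / 2) * (p + q) ^ 2 - |p - q| * |p + q| =
          (1 / (2 * ε)) * ((p - q) ^ 2 - 2 * ε * (|p - q| * |p + q|) + ε ^ 2 * (p + q) ^ 2) := by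
        field_simp
        ring
      have h5 : 0 ≤ (1 / (2 * ε)) *
          ((p - q) ^ 2 - 2 * ε * (|p - q| * |p + q|) + ε ^ 2 * (p + q) ^ 2) :=
        mul_nonneg (by positivity) h2
      linarith
    have h6 : (p + q) ^ 2 ≤ 2 * (p ^ 2 + q ^ 2) := by nlinarith [sq_nonneg (p - q)]
    have h7 : |p ^ 2 - q ^ 2| ≤ (1 / (2 * ε)) * (p - q) ^ 2 + ε * (p ^ 2 + q ^ 2) := by
      rw [h0]; nlinarith
    calc a x y * |p ^ 2 - q ^ 2| ≤ a x y * ((1 / (2 * ε)) * (p - q) ^ 2 + ε * (p ^ 2 + q ^ 2)) :=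
          mul_le_mul_of_nonneg_left h7 ha
      _ = _ := by ring
  have hsum : ∑ x, ∑ y, a x y * |f x ^ 2 - Pop a d f y ^ 2| ≤
      (1 / (2 * ε)) * (∑ x, ∑ y, a x y * (f x - Pop a d f y) ^ 2) +
        ε * (∑ x, (∑ y, a x y) * f x ^ 2 + ∑ y, (∑ x, a y x) * Pop a d f y ^ 2) := by
    rw [← row_swap hk (fun y => Pop a d f y ^ 2), ← Finset.sum_add_distrib, Finset.mul_sum,
      Finset.mul_sum, ← Finset.sum_add_distrib]
    apply Finset.sum_le_sum
    intro x _
    rw [Finset.sum_mul, ← Finset.sum_add_distrib, Finset.mul_sum, Finset.mul_sum,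
      ← Finset.sum_add_distrib]
    exact Finset.sum_le_sum (fun y _ => hpt x y)
  have hE := energy hk f
  have hK1 : 0 ≤ ∑ x, (d - ∑ y, a x y) * f x ^ 2 :=
    Finset.sum_nonneg (fun x _ => mul_nonneg (by linarith [hk.row x]) (sq_nonneg _))
  have hK2 : 0 ≤ ∑ y, (d - ∑ x, a y x) * Pop a d f y ^ 2 :=
    Finset.sum_nonneg (fun x _ => mul_nonneg (by linarith [hk.row x]) (sq_nonneg _))
  have hr1 : ∑ x, (∑ y, a x y) * f x ^ 2 ≤ d * ∑ x, f x ^ 2 := by
    rw [Finset.mul_sum]
    exact Finset.sum_le_sum (fun x _ => mul_le_mul_of_nonneg_right (hk.row x) (sq_nonneg _))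
  have hr2 : ∑ y, (∑ x, a y x) * Pop a d f y ^ 2 ≤ d * ∑ y, Pop a d f y ^ 2 := by
    rw [Finset.mul_sum]
    exact Finset.sum_le_sum (fun x _ => mul_le_mul_of_nonneg_right (hk.row x) (sq_nonneg _))
  have hge : 1 ≤ 1 / (2 * ε) := by
    rw [le_div_iff₀ (by positivity)]; linarith
  set E := ∑ x, ∑ y, a x y * (f x - Pop a d f y) ^ 2
  set K1 := ∑ x, (d - ∑ y, a x y) * f x ^ 2
  set K2 := ∑ y, (d - ∑ x, a y x) * Pop a d f y ^ 2
  set A := ∑ x, f x ^ 2
  set B := ∑ y, Pop a d f y ^ 2
  set R1 := ∑ x, (∑ y, a x y) * f x ^ 2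
  set R2 := ∑ y, (∑ x, a y x) * Pop a d f y ^ 2
  have h8 : K1 + (1 / (2 * ε)) * E ≤ (1 / (2 * ε)) * (d * (A - B)) := by
    rw [← hE]
    have : 0 ≤ (1 / (2 * ε) - 1) * K1 := mul_nonneg (by linarith) hK1
    have : 0 ≤ (1 / (2 * ε)) * K2 := mul_nonneg (by positivity) hK2
    nlinarith
  have h9 : ε * (R1 + R2) ≤ ε * (d * (A + B)) := by
    apply mul_le_mul_of_nonneg_left _ hε.le
    linarith
  linarith

theorem leak_nn (hk : Ker a d) (T U : Finset V) : 0 ≤ leak a d T U := by
  unfold leak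
  have h1 : ∑ x ∈ T, ∑ y ∈ U, a x y ≤ ∑ x ∈ T, d := by
    apply Finset.sum_le_sum
    intro x _
    exact le_trans (Finset.sum_le_univ_sum_of_nonneg (fun y => hk.nn x y)) (hk.row x)
  rw [Finset.sum_const, nsmul_eq_mul] at h1
  linarith

/-- indicator of `t < s` -/
noncomputable def ind (t s : ℝ) : ℝ := if t < s then 1 else 0

theorem ind_nn (t s : ℝ) : 0 ≤ ind t s := by
  unfold ind; split_ifs <;> norm_num

theorem ind_min (t s r : ℝ) : ind t (min s r) = ind t s * ind t r := by
  unfold ind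
  by_cases h1 : t < s <;> by_cases h2 : t < r <;> simp [h1, h2]

theorem ind_card (t : ℝ) (F : V → ℝ) :
    ∑ x, ind t (F x) = ((univ.filter (fun x => t < F x)).card : ℝ) := by
  unfold ind
  rw [Finset.card_filter]
  push_cast
  rfl

theorem trunc_lip (s r t0 : ℝ) (h : r ≤ s) : max (s - t0) 0 - max (r - t0) 0 ≤ s - r := by
  rcases le_total s t0 with h1 | h1 <;> rcases le_total r t0 with h2 | h2 <;>
    simp only [max_def] <;> split_ifs <;> linarith

theorem stmt_NASH1 : Stmt_NASH1.{u} := by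
  intro V _ a d M g hk hM hg hg1 hNP f hf hf1 hA
  have hd := hk.pos
  set h := Pop a d f with hh
  set A := ∑ x, f x ^ 2 with hAdef
  set B := ∑ x, h x ^ 2 with hBdef
  have hApos : 0 < A := lt_of_lt_of_le (by positivity) hA
  by_contra hcon
  push Not at hcon
  set δ : ℝ := g ^ 4 / 576 with hδ
  have hδpos : 0 < δ := by positivity
  have hAB : A - B < δ * A := by
    have : (1 - δ) * A = A - δ * A := by ring
    linarith
  set ε : ℝ := g ^ 2 / 48 with hε
  have hεpos : 0 < ε := by positivity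
  have hg2 : g ^ 2 ≤ 1 := by nlinarith
  have hε2 : ε ≤ 1 / 2 := by rw [hε]; linarith
  -- B ≤ A
  have hK1 : 0 ≤ ∑ x, (d - ∑ y, a x y) * f x ^ 2 :=
    Finset.sum_nonneg (fun x _ => mul_nonneg (by linarith [hk.row x]) (sq_nonneg _))
  have hK2 : 0 ≤ ∑ y, (d - ∑ x, a y x) * h y ^ 2 :=
    Finset.sum_nonneg (fun x _ => mul_nonneg (by linarith [hk.row x]) (sq_nonneg _))
  have hE0 : 0 ≤ ∑ x, ∑ y, a x y * (f x - h y) ^ 2 :=
    Finset.sum_nonneg (fun x _ => Finset.sum_nonneg
      (fun y _ => mul_nonneg (hk.nn x y) (sq_nonneg _)))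
  have hBA : B ≤ A := by
    have hE := energy hk f
    rw [← hh] at hE
    have : 0 ≤ d * (A - B) := by
      rw [hAdef, hBdef, ← hE]; positivity
    have := (mul_nonneg_iff_of_pos_left hd).1 this
    linarith
  -- the l1 bound
  have hL := l1_bound hk f ε hεpos hε2
  rw [← hh] at hL
  set Λ := ∑ x, (d - ∑ y, a x y) * f x ^ 2 + ∑ x, ∑ y, a x y * |f x ^ 2 - h y ^ 2| with hΛ
  have hΛ1 : Λ ≤ g ^ 2 / 12 * (d * A) := by
    have h1 : (1 / (2 * ε)) * (d * (A - B)) ≤ (1 / (2 * ε)) * (d * (δ * A)) := by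
      apply mul_le_mul_of_nonneg_left _ (by positivity)
      exact mul_le_mul_of_nonneg_left hAB.le hd.le
    have h2 : ε * (d * (A + B)) ≤ ε * (d * (2 * A)) := by
      apply mul_le_mul_of_nonneg_left _ hεpos.le
      exact mul_le_mul_of_nonneg_left (by linarith) hd.le
    have h3 : (1 / (2 * ε)) * (d * (δ * A)) + ε * (d * (2 * A)) = g ^ 2 / 12 * (d * A) := by
      rw [hε, hδ]
      field_simp
      ring
    linarith
  set θ : ℝ := g / (8 * M * d) with hθ
  have hθpos : 0 < θ := by positivity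
  have hθA : θ ≤ g / 8 * A := by
    have h1 : θ = g / 8 * (1 / (M * d)) := by rw [hθ]; field_simp
    rw [h1]
    exact mul_le_mul_of_nonneg_left hA (by positivity)
  set c : ℝ := (1 + g) / (g * d) with hc
  have hcpos : 0 < c := by positivity
  -- the threshold inequality
  have hthr : ∀ t, θ ^ 2 ≤ t →
      0 ≤ ∑ y, ind t (h y ^ 2) + c * (∑ x, (d - ∑ y, a x y) * ind t (f x ^ 2) +
        ∑ x, ∑ y, a x y * (ind t (f x ^ 2) - ind t (min (f x ^ 2) (h y ^ 2)))) -
        (1 + g) * ∑ x, ind t (f x ^ 2) := by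
    intro t ht
    set T := univ.filter (fun x => t < f x ^ 2) with hT
    set U := univ.filter (fun x => t < h x ^ 2) with hU
    rw [ind_card t (fun y => h y ^ 2), ind_card t (fun x => f x ^ 2)]
    have hleak : ∑ x, (d - ∑ y, a x y) * ind t (f x ^ 2) +
        ∑ x, ∑ y, a x y * (ind t (f x ^ 2) - ind t (min (f x ^ 2) (h y ^ 2))) = leak a d T U := by
      unfold leak
      have e1 : ∑ x ∈ T, ∑ y ∈ U, a x y =
          ∑ x, ∑ y, a x y * ind t (min (f x ^ 2) (h y ^ 2)) := by
        rw [hT, Finset.sum_filter]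
        apply Finset.sum_congr rfl
        intro x _
        by_cases hx : t < f x ^ 2
        · rw [if_pos hx, hU, Finset.sum_filter]
          apply Finset.sum_congr rfl
          intro y _
          rw [ind_min]
          unfold ind
          rw [if_pos hx]
          by_cases hy : t < h y ^ 2 <;> simp [hy]
        · rw [if_neg hx]
          symm
          apply Finset.sum_eq_zero
          intro y _
          rw [ind_min]
          unfold ind
          rw [if_neg hx]
          ring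
      have e2 : (T.card : ℝ) = ∑ x, ind t (f x ^ 2) := by rw [ind_card t (fun x => f x ^ 2)]
      rw [e1, e2, Finset.mul_sum, ← Finset.sum_sub_distrib, ← Finset.sum_add_distrib]
      apply Finset.sum_congr rfl
      intro x _
      have e3 : ∑ y, a x y * (ind t (f x ^ 2) - ind t (min (f x ^ 2) (h y ^ 2))) =
          (∑ y, a x y) * ind t (f x ^ 2) - ∑ y, a x y * ind t (min (f x ^ 2) (h y ^ 2)) := by
        rw [Finset.sum_mul, ← Finset.sum_sub_distrib]
        apply Finset.sum_congr rfl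
        intro y _
        ring
      rw [e3]
      ring
    rw [hleak]
    have hl0 := leak_nn hk T U
    have hcl : 0 ≤ c * leak a d T U := mul_nonneg hcpos.le hl0
    have hUc : (0 : ℝ) ≤ (U.card : ℝ) := Nat.cast_nonneg _
    rcases Finset.eq_empty_or_nonempty T with hTe | hTn
    · have hT0 : (T.card : ℝ) = 0 := by rw [hTe]; simp
      rw [hT0]
      linarith
    · have hTc : (T.card : ℝ) ≤ 8 * M / g * d := by
        have h1 : (T.card : ℝ) * θ ≤ 1 := by
          calc (T.card : ℝ) * θ = ∑ x ∈ T, θ := by rw [Finset.sum_const, nsmul_eq_mul]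
            _ ≤ ∑ x ∈ T, f x := by
                apply Finset.sum_le_sum
                intro x hx
                rw [hT, Finset.mem_filter] at hx
                have h2 : θ ^ 2 < f x ^ 2 := lt_of_le_of_lt ht hx.2
                exact (lt_of_pow_lt_pow_left₀ 2 (hf x) h2).le
            _ ≤ ∑ x, f x := Finset.sum_le_univ_sum_of_nonneg hf
            _ ≤ 1 := hf1
        have h3 : 8 * M / g * d = 1 / θ := by rw [hθ]; field_simp
        rw [h3, le_div_iff₀ hθpos]
        exact h1
      by_cases hUT : (U.card : ℝ) ≤ (1 + g) * T.card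
      · have h4 := hNP T U hTn hTc hUT
        have h5 : (1 + g) * (T.card : ℝ) ≤ c * leak a d T U := by
          calc (1 + g) * (T.card : ℝ) = c * (g * d * T.card) := by rw [hc]; field_simp
            _ ≤ c * leak a d T U := mul_le_mul_of_nonneg_left h4 hcpos.le
        linarith
      · push Not at hUT
        linarith
  -- integrate
  have hint : 0 ≤ ∑ y, max (h y ^ 2 - θ ^ 2) 0 +
      c * (∑ x, (d - ∑ y, a x y) * max (f x ^ 2 - θ ^ 2) 0 +
        ∑ x, ∑ y, a x y * (max (f x ^ 2 - θ ^ 2) 0 - max (min (f x ^ 2) (h y ^ 2) - θ ^ 2) 0)) -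
        (1 + g) * ∑ x, max (f x ^ 2 - θ ^ 2) 0 := by
    have key := threshold (ι := V ⊕ V ⊕ (V × V) ⊕ (V × V) ⊕ V) Finset.univ
      (Sum.elim (fun _ => 1) (Sum.elim (fun x => c * (d - ∑ y, a x y))
        (Sum.elim (fun p => c * a p.1 p.2) (Sum.elim (fun p => - (c * a p.1 p.2))
          (fun _ => -(1 + g))))))
      (Sum.elim (fun y => h y ^ 2) (Sum.elim (fun x => f x ^ 2)
        (Sum.elim (fun p => f p.1 ^ 2) (Sum.elim (fun p => min (f p.1 ^ 2) (h p.2 ^ 2))
          (fun x => f x ^ 2))))) (θ ^ 2) ?_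
    · simp only [Fintype.sum_sum_type, Sum.elim_inl, Sum.elim_inr, Fintype.sum_prod_type] at key
      refine le_of_le_of_eq key ?_
      rw [mul_add, Finset.mul_sum, Finset.mul_sum, Finset.mul_sum]
      have e1 : ∀ x, c * ∑ y, a x y * (max (f x ^ 2 - θ ^ 2) 0 -
          max (min (f x ^ 2) (h y ^ 2) - θ ^ 2) 0) =
          ∑ y, c * a x y * max (f x ^ 2 - θ ^ 2) 0 +
          ∑ y, -(c * a x y) * max (min (f x ^ 2) (h y ^ 2) - θ ^ 2) 0 := by
        intro x
        rw [Finset.mul_sum, ← Finset.sum_add_distrib]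
        apply Finset.sum_congr rfl
        intro y _
        ring
      simp only [e1, Finset.sum_add_distrib, one_mul, neg_mul, Finset.sum_neg_distrib, mul_assoc]
      ring
    · intro t ht
      have h1 := hthr t ht
      simp only [Fintype.sum_sum_type, Sum.elim_inl, Sum.elim_inr, Fintype.sum_prod_type]
      refine le_of_le_of_eq h1 ?_
      rw [mul_add, Finset.mul_sum, Finset.mul_sum, Finset.mul_sum]
      have e1 : ∀ x, c * ∑ y, a x y * (ind t (f x ^ 2) - ind t (min (f x ^ 2) (h y ^ 2))) =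
          ∑ y, c * a x y * ind t (f x ^ 2) +
          ∑ y, -(c * a x y) * ind t (min (f x ^ 2) (h y ^ 2)) := by
        intro x
        rw [Finset.mul_sum, ← Finset.sum_add_distrib]
        apply Finset.sum_congr rfl
        intro y _
        ring
      simp only [e1, Finset.sum_add_distrib, one_mul, neg_mul, Finset.sum_neg_distrib, mul_assoc]
      unfold ind
      ring_nf
  -- estimate
  have b1 : ∑ y, max (h y ^ 2 - θ ^ 2) 0 ≤ B := by
    apply Finset.sum_le_sum
    intro y _
    exact max_le (by linarith [sq_nonneg θ]) (sq_nonneg _)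
  have b2 : ∑ x, (d - ∑ y, a x y) * max (f x ^ 2 - θ ^ 2) 0 +
      ∑ x, ∑ y, a x y * (max (f x ^ 2 - θ ^ 2) 0 - max (min (f x ^ 2) (h y ^ 2) - θ ^ 2) 0) ≤
      Λ := by
    rw [hΛ]
    apply add_le_add
    · apply Finset.sum_le_sum
      intro x _
      apply mul_le_mul_of_nonneg_left _ (by linarith [hk.row x])
      exact max_le (by linarith [sq_nonneg θ]) (sq_nonneg _)
    · apply Finset.sum_le_sum
      intro x _
      apply Finset.sum_le_sum
      intro y _
      apply mul_le_mul_of_nonneg_left _ (hk.nn x y)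
      have h1 := trunc_lip (f x ^ 2) (min (f x ^ 2) (h y ^ 2)) (θ ^ 2) (min_le_left _ _)
      have h2 : f x ^ 2 - min (f x ^ 2) (h y ^ 2) ≤ |f x ^ 2 - h y ^ 2| := by
        rcases le_total (f x ^ 2) (h y ^ 2) with h3 | h3
        · rw [min_eq_left h3]; simp
        · rw [min_eq_right h3]; exact le_abs_self _
      linarith
  have b3 : A - θ ≤ ∑ x, max (f x ^ 2 - θ ^ 2) 0 := by
    have h1 : ∀ x, f x ^ 2 - θ * f x ≤ max (f x ^ 2 - θ ^ 2) 0 := by
      intro x
      rcases le_total (f x) θ with h2 | h2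
      · refine le_trans ?_ (le_max_right _ _)
        nlinarith [hf x]
      · refine le_trans ?_ (le_max_left _ _)
        nlinarith
    have h2 : ∑ x, (f x ^ 2 - θ * f x) ≤ ∑ x, max (f x ^ 2 - θ ^ 2) 0 :=
      Finset.sum_le_sum (fun x _ => h1 x)
    rw [Finset.sum_sub_distrib, ← Finset.mul_sum] at h2
    have h3 : θ * ∑ x, f x ≤ θ * 1 := mul_le_mul_of_nonneg_left hf1 hθpos.le
    linarith
  have b4 : c * Λ ≤ (1 + g) * (g / 12) * A := by
    calc c * Λ ≤ c * (g ^ 2 / 12 * (d * A)) := mul_le_mul_of_nonneg_left hΛ1 hcpos.le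
      _ = (1 + g) * (g / 12) * A := by rw [hc]; field_simp
  have b5 : (1 + g) * (A - θ) ≤ (1 + g) * ∑ x, max (f x ^ 2 - θ ^ 2) 0 :=
    mul_le_mul_of_nonneg_left b3 (by linarith)
  have b6 := mul_le_mul_of_nonneg_left b2 hcpos.le
  have b7 : (1 + g) * θ ≤ (1 + g) * (g / 8 * A) := mul_le_mul_of_nonneg_left hθA (by linarith)
  have b8 : 0 ≤ A + (1 + g) * (g / 12) * A - (1 + g) * A + (1 + g) * (g / 8 * A) := by
    linarith
  have b9 : A + (1 + g) * (g / 12) * A - (1 + g) * A + (1 + g) * (g / 8 * A) =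
      (A * g) * ((1 + g) * (5 / 24) - 1) := by ring
  rw [b9] at b8
  have b10 : (A * g) * ((1 + g) * (5 / 24) - 1) < 0 := by
    apply mul_neg_of_pos_of_neg (by positivity)
    linarith
  linarith

end step

/-! ## Iteration -/

section iter
variable {V : Type u} [Fintype V] {a : V → V → ℝ} {d : ℝ}

theorem pk_nn (hk : Ker a d) (v : V) : ∀ (j : ℕ) (x : V), 0 ≤ pk a d j v x
  | 0, x => by unfold pk; split_ifs <;> norm_num
  | j + 1, x => by unfold pk; exact Pop_nn hk (fun y => pk_nn hk v j y) x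

theorem pk_sum (hk : Ker a d) (v : V) : ∀ j : ℕ, ∑ x, pk a d j v x ≤ 1
  | 0 => by unfold pk; simp
  | j + 1 => by
    unfold pk
    exact le_trans (Pop_sum hk (fun y => pk_nn hk v j y)) (pk_sum hk v j)

theorem Pop_lin (hk : Ker a d) (f h : V → ℝ) :
    ∑ x, Pop a d f x * h x = ∑ x, f x * Pop a d h x := by
  unfold Pop
  have h1 : ∑ x, (1 / d * ∑ y, a x y * f y) * h x = ∑ x, ∑ y, 1 / d * (a x y * f y * h x) := by
    apply Finset.sum_congr rfl
    intro x _
    rw [mul_assoc, Finset.sum_mul, Finset.mul_sum]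
  have h2 : ∑ x, f x * (1 / d * ∑ y, a x y * h y) = ∑ x, ∑ y, 1 / d * (a x y * f x * h y) := by
    apply Finset.sum_congr rfl
    intro x _
    rw [Finset.mul_sum, Finset.mul_sum]
    apply Finset.sum_congr rfl
    intro y _
    ring
  rw [h1, h2, Finset.sum_comm]
  apply Finset.sum_congr rfl
  intro x _
  apply Finset.sum_congr rfl
  intro y _
  rw [hk.symm x y]

/-- Chapman–Kolmogorov -/
theorem pk_add (hk : Ker a d) (v x : V) : ∀ i j : ℕ,
    pk a d (i + j) v x = ∑ y, pk a d i v y * pk a d j x y := by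
  intro i j
  induction j generalizing i with
  | zero =>
    simp only [add_zero]
    have : ∀ y, pk a d i v y * pk a d 0 x y = if y = x then pk a d i v y else 0 := by
      intro y
      unfold pk
      split_ifs <;> simp
    simp only [this, Finset.sum_ite_eq', Finset.mem_univ, if_true]
  | succ j ih =>
    have h1 : i + (j + 1) = (i + 1) + j := by ring
    rw [h1, ih (i + 1)]
    have h2 : ∀ y, pk a d (i + 1) v y = Pop a d (pk a d i v) y := fun y => rfl
    have h3 : ∀ y, pk a d (j + 1) x y = Pop a d (pk a d j x) y := fun y => rfl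
    simp only [h2, h3]
    exact Pop_lin hk _ _

theorem pk_symm (hk : Ker a d) (v x : V) (j : ℕ) : pk a d j v x = pk a d j x v := by
  have h1 := pk_add hk v x 0 j
  have h2 := pk_add hk x v j 0
  rw [zero_add] at h1
  rw [add_zero] at h2
  rw [h1, h2]
  apply Finset.sum_congr rfl
  intro y _
  ring

/-- Cauchy–Schwarz -/
theorem pk_cs (hk : Ker a d) (v x : V) (i : ℕ) (C : ℝ) (hC : 0 ≤ C)
    (h : ∀ v, ∑ y, pk a d i v y ^ 2 ≤ C) : pk a d (i + i) v x ≤ C := by
  rw [pk_add hk v x i i]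
  have h1 := Finset.sum_mul_sq_le_sq_mul_sq Finset.univ (pk a d i v) (pk a d i x)
  have h2 : (∑ y, pk a d i v y * pk a d i x y) ^ 2 ≤ C ^ 2 := by
    calc _ ≤ _ := h1
      _ ≤ C * C := mul_le_mul (h v) (h x) (Finset.sum_nonneg (fun _ _ => sq_nonneg _)) hC
      _ = C ^ 2 := by ring
  exact abs_le_of_sq_le_sq' h2 hC |>.2

theorem pk_mono (hk : Ker a d) (C : ℝ) (hC : 0 ≤ C) (i : ℕ) (h : ∀ v x, pk a d i v x ≤ C) :
    ∀ j, i ≤ j → ∀ v x, pk a d j v x ≤ C := by
  intro j hj
  induction j, hj using Nat.le_induction with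
  | base => exact h
  | succ j _ ih =>
    intro v x
    have hd := hk.pos
    have h1 : pk a d (j + 1) v x = (1 / d) * ∑ y, a x y * pk a d j v y := rfl
    rw [h1]
    have h2 : ∑ y, a x y * pk a d j v y ≤ d * C := by
      calc ∑ y, a x y * pk a d j v y ≤ ∑ y, a x y * C :=
            Finset.sum_le_sum (fun y _ => mul_le_mul_of_nonneg_left (ih v y) (hk.nn x y))
        _ = (∑ y, a x y) * C := by rw [Finset.sum_mul]
        _ ≤ d * C := mul_le_mul_of_nonneg_right (hk.row x) hC
    calc (1 / d) * ∑ y, a x y * pk a d j v y ≤ (1 / d) * (d * C) :=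
          mul_le_mul_of_nonneg_left h2 (by positivity)
      _ = C := by field_simp

theorem stmt_NASH : Stmt_NASH.{u} := by
  intro V _ a d M g hk ha1 hM hg hg1 hNP J hJ
  have hd := hk.pos
  have hM0 : 0 < M := by linarith
  set δ : ℝ := g ^ 4 / 576 with hδ
  have hδpos : 0 < δ := by positivity
  have hg4 : g ^ 4 ≤ 1 := pow_le_one₀ hg.le hg1
  have hδ1 : δ ≤ 1 / 576 := by rw [hδ]; linarith
  -- one step: sum of squares at most 1/d
  have hone : ∀ v, ∑ x, pk a d 1 v x ^ 2 ≤ 1 / d := by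
    intro v
    have h1 : ∀ x, pk a d 1 v x = (1 / d) * a x v := by
      intro x
      have : pk a d 1 v x = (1 / d) * ∑ y, a x y * pk a d 0 v y := rfl
      rw [this]
      congr 1
      have : ∀ y, a x y * pk a d 0 v y = if y = v then a x y else 0 := by
        intro y; unfold pk; split_ifs <;> simp
      simp only [this, Finset.sum_ite_eq', Finset.mem_univ, if_true]
    simp only [h1]
    have h2 : ∀ x, (1 / d * a x v) ^ 2 ≤ (1 / d) ^ 2 * a v x := by
      intro x
      rw [mul_pow, hk.symm v x]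
      apply mul_le_mul_of_nonneg_left _ (by positivity)
      have := hk.nn x v
      have := ha1 x v
      nlinarith
    calc ∑ x, (1 / d * a x v) ^ 2 ≤ ∑ x, (1 / d) ^ 2 * a v x :=
          Finset.sum_le_sum (fun x _ => h2 x)
      _ = (1 / d) ^ 2 * ∑ x, a v x := by rw [Finset.mul_sum]
      _ ≤ (1 / d) ^ 2 * d := mul_le_mul_of_nonneg_left (hk.row v) (by positivity)
      _ = 1 / d := by field_simp
  -- decay
  have hdec : ∀ v (n : ℕ), ∑ x, pk a d (n + 1) v x ^ 2 ≤ max (1 / (M * d)) ((1 - δ) ^ n / d) := by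
    intro v n
    induction n with
    | zero => simpa using Or.inr (hone v)
    | succ n ih =>
      by_cases hlow : ∑ x, pk a d (n + 1) v x ^ 2 < 1 / (M * d)
      · apply le_trans _ (le_max_left _ _)
        -- the norm does not increase
        have hE := energy hk (pk a d (n + 1) v)
        have hK1 : 0 ≤ ∑ x, (d - ∑ y, a x y) * pk a d (n + 1) v x ^ 2 :=
          Finset.sum_nonneg (fun x _ => mul_nonneg (by linarith [hk.row x]) (sq_nonneg _))
        have hK2 : 0 ≤ ∑ y, (d - ∑ x, a y x) * Pop a d (pk a d (n + 1) v) y ^ 2 :=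
          Finset.sum_nonneg (fun x _ => mul_nonneg (by linarith [hk.row x]) (sq_nonneg _))
        have hE0 : 0 ≤ ∑ x, ∑ y, a x y * (pk a d (n + 1) v x - Pop a d (pk a d (n + 1) v) y) ^ 2 :=
          Finset.sum_nonneg (fun x _ => Finset.sum_nonneg
            (fun y _ => mul_nonneg (hk.nn x y) (sq_nonneg _)))
        have h3 : 0 ≤ d * (∑ x, pk a d (n + 1) v x ^ 2 - ∑ y, Pop a d (pk a d (n + 1) v) y ^ 2) := by
          rw [← hE]; positivity
        have h4 := (mul_nonneg_iff_of_pos_left hd).1 h3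
        have h5 : ∑ x, pk a d (n + 1 + 1) v x ^ 2 = ∑ y, Pop a d (pk a d (n + 1) v) y ^ 2 := rfl
        rw [h5]
        linarith
      · push Not at hlow
        have h1 := stmt_NASH1 a d M g hk hM0 hg hg1 hNP (pk a d (n + 1) v) (pk_nn hk v (n + 1))
          (pk_sum hk v (n + 1)) hlow
        have h5 : ∑ x, pk a d (n + 1 + 1) v x ^ 2 = ∑ y, Pop a d (pk a d (n + 1) v) y ^ 2 := rfl
        rw [h5]
        refine le_trans h1 ?_
        have h6 : 0 ≤ 1 - δ := by linarith
        have h7 := mul_le_mul_of_nonneg_left ih h6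
        refine le_trans h7 ?_
        rw [mul_max_of_nonneg _ _ h6]
        apply max_le_max
        · have : 0 < 1 / (M * d) := by positivity
          nlinarith
        · rw [pow_succ]
          apply le_of_eq
          ring
  have hJ1 : 1 ≤ J := by
    have h1 : 0 ≤ 576 * Real.log M / g ^ 4 :=
      div_nonneg (mul_nonneg (by norm_num) (Real.log_nonneg hM)) (by positivity)
    have h2 : (1 : ℝ) ≤ J := by linarith
    exact_mod_cast h2
  have hL2 : ∀ v, ∑ x, pk a d J v x ^ 2 ≤ 1 / (M * d) := by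
    intro v
    obtain ⟨n, rfl⟩ : ∃ n, J = n + 1 := ⟨J - 1, by omega⟩
    refine le_trans (hdec v n) ?_
    apply max_le le_rfl
    have h1 : (1 - δ) ^ n ≤ 1 / M := by
      have h2 : (1 - δ) ^ n ≤ Real.exp (-δ) ^ n := by
        apply pow_le_pow_left₀ (by linarith)
        have := Real.add_one_le_exp (-δ)
        linarith
      rw [← Real.exp_nat_mul] at h2
      refine le_trans h2 ?_
      rw [← Real.exp_log hM0, one_div, ← Real.exp_neg]
      apply Real.exp_le_exp.2
      have h3 : 576 * Real.log M / g ^ 4 ≤ (n : ℝ) := by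
        have : ((n + 1 : ℕ) : ℝ) = n + 1 := by push_cast; ring
        rw [this] at hJ
        linarith
      have h4 : 576 * Real.log M / g ^ 4 = Real.log M / δ := by rw [hδ]; field_simp
      rw [h4, div_le_iff₀ hδpos] at h3
      linarith
    calc (1 - δ) ^ n / d ≤ (1 / M) / d := by
          apply div_le_div_of_nonneg_right h1 hd.le
      _ = 1 / (M * d) := by field_simp
  refine ⟨hL2, ?_⟩
  have hC : (0 : ℝ) ≤ 1 / (M * d) := by positivity
  have h2J : ∀ v x, pk a d (2 * J) v x ≤ 1 / (M * d) := by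
    intro v x
    rw [two_mul]
    exact pk_cs hk v x J _ hC hL2
  intro j hj
  exact pk_mono hk _ hC (2 * J) h2J j hj

end iter

end Pool.Agent.Work.MP_db9399_ns
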